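import Pool.Agent.H31.MP.Basic

/-!
# MP_76b9e7_nt, board mtp_modules, row CH: the choice of the function of one variable
-/

set_option autoImplicit false

open Finset Real ArithmeticFunction
open scoped Nat

namespace Pool.Agent.H12.MTP

open Pool.Agent.H31.MP

lemma mem_RS {z U : ℝ} (hU : 0 ≤ U) {a : ℕ} : a ∈ RS z U ↔ 1 ≤ a ∧ (a : ℝ) ≤ U ∧ Rgh z a := by
  classical
  rw [RS, mem_filter, mem_Icc, Nat.le_floor_iff hU]
  tauto

/-- the choice of `B` -/
lemma choose_B (M c C : ℝ) (hc : 0 < c) (hC : 0 < C) : ∃ B : ℝ, 4 ≤ B ∧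
    64 * C * (1 + Real.log (1 + B / 4)) ≤ c * B ∧ 1 ≤ Real.log (1 + B / 4) ∧
    1024 * M * C ^ 2 ≤ c ^ 3 * Real.log (1 + B / 4) := by
  have ht : Filter.Tendsto (fun B : ℝ => 1 + B / 4) Filter.atTop Filter.atTop :=
    Filter.tendsto_atTop_add_const_left _ _ (Filter.tendsto_id.atTop_div_const (by norm_num))
  have hl : Filter.Tendsto (fun B : ℝ => Real.log (1 + B / 4)) Filter.atTop Filter.atTop :=
    Real.tendsto_log_atTop.comp ht
  have ho : ∀ᶠ B : ℝ in Filter.atTop, ‖Real.log (1 + B / 4)‖ ≤ c / (64 * C) * ‖1 + B / 4‖ :=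
    ht.eventually (Real.isLittleO_log_id_atTop.bound (show 0 < c / (64 * C) by positivity))
  have h := (((Filter.eventually_ge_atTop (4 : ℝ)).and
    (Filter.eventually_ge_atTop (2 * (64 * C + c) / c))).and ho).and
    ((hl.eventually_ge_atTop 1).and (hl.eventually_ge_atTop (1024 * M * C ^ 2 / c ^ 3)))
  obtain ⟨B, ⟨⟨h1, h2⟩, h3⟩, h4, h5⟩ := h.exists
  refine ⟨B, h1, ?_, h4, ?_⟩
  · have h6 : Real.log (1 + B / 4) ≤ c / (64 * C) * (1 + B / 4) := by
      have e1 : ‖1 + B / 4‖ = 1 + B / 4 := by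
        rw [Real.norm_eq_abs, abs_of_nonneg (by linarith)]
      rw [e1] at h3
      exact (Real.le_norm_self _).trans h3
    have h7 : 64 * C * Real.log (1 + B / 4) ≤ c * (1 + B / 4) := by
      calc 64 * C * Real.log (1 + B / 4) ≤ 64 * C * (c / (64 * C) * (1 + B / 4)) :=
            mul_le_mul_of_nonneg_left h6 (by positivity)
        _ = c * (1 + B / 4) := by field_simp
    have h8 : 2 * (64 * C + c) ≤ c * B := by
      rw [div_le_iff₀ hc] at h2
      linarith
    nlinarith
  · rw [div_le_iff₀ (by positivity)] at h5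
    linarith

theorem pf_CH (hLC : T_LC) (hLD : T_LD) : T_CH := by
  classical
  intro M c C hM hc hC
  obtain ⟨B, hB4, hB1, hL1, hL2⟩ := choose_B M c C hc hC
  have hB0 : 0 < B := by linarith
  set L := Real.log (1 + B / 4) with hL
  have hL0 : 0 < L := by linarith
  set x : ℝ := B * c / (64 * C * (1 + L)) with hx
  have hx1 : 1 ≤ x := by
    rw [hx, le_div_iff₀ (by positivity)]
    linarith
  have hx0 : 0 ≤ x := by linarith
  have hKx : (⌊x⌋₊ : ℝ) ≤ x := Nat.floor_le hx0
  have hK1 : 1 ≤ ⌊x⌋₊ := Nat.le_floor (by simpa using hx1)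
  have hKx2 : x / 2 ≤ (⌊x⌋₊ : ℝ) := by
    have h1 := Nat.lt_floor_add_one x
    have h2 : (1 : ℝ) ≤ (⌊x⌋₊ : ℝ) := by exact_mod_cast hK1
    linarith
  refine ⟨⌊x⌋₊, 1 / B, hK1, by positivity, ?_⟩
  intro z Y hz hY hzY hlow hup
  set K : ℝ := (⌊x⌋₊ : ℝ) with hK
  have hlz : 0 < Real.log z := Real.log_pos (by linarith)
  have hlY : 0 < Real.log Y := Real.log_pos hY
  have hBz : B * Real.log z ≤ Real.log Y := by
    have h1 : B * Real.log z ≤ B * (1 / B * Real.log Y) := mul_le_mul_of_nonneg_left hzY hB0.le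
    have h2 : B * (1 / B * Real.log Y) = Real.log Y := by field_simp
    linarith
  obtain ⟨c1, c2⟩ := hLC c B z Y hc hB4 hz hY hlow
  obtain ⟨d1, d2⟩ := hLD C B z Y hC hB4 hz hY hBz hup
  set S := Real.log Y / Real.log z with hS
  have hS0 : 0 < S := by positivity
  have hY0 : 0 ≤ Y := by linarith
  have hY4 : 0 ≤ Y ^ (1 / 4 : ℝ) := Real.rpow_nonneg hY0 _
  have hY41 : 1 ≤ Y ^ (1 / 4 : ℝ) := Real.one_le_rpow hY.le (by norm_num)
  -- the function
  set w : ℕ → ℝ := fun a => 1 / (1 + B * (Real.log a / Real.log Y)) with hw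
  have hlog : ∀ a : ℕ, 0 ≤ Real.log a / Real.log Y := fun a =>
    div_nonneg (Real.log_natCast_nonneg a) hlY.le
  have hden : ∀ a : ℕ, 1 ≤ 1 + B * (Real.log a / Real.log Y) := fun a => by
    have := mul_nonneg hB0.le (hlog a)
    linarith
  have hw0 : ∀ a, 0 < w a := fun a => one_div_pos.2 (by linarith [hden a])
  have hw1 : ∀ a, w a ≤ 1 := fun a => by
    rw [hw]
    simp only
    rw [div_le_one (by linarith [hden a])]
    exact hden a
  set g : ℕ → ℝ := fun a => if (a : ℝ) ≤ Y ^ (1 / 4 : ℝ) then w a else 0 with hg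
  have hsum : ∀ h : ℕ → ℝ, (∀ a : ℕ, ¬ (a : ℝ) ≤ Y ^ (1 / 4 : ℝ) → h a = 0) →
      ∑ a ∈ RS z Y, h a = ∑ a ∈ RS z (Y ^ (1 / 4 : ℝ)), h a := by
    intro h hh
    symm
    refine Finset.sum_subset ?_ ?_
    · intro a ha
      rw [mem_RS hY4] at ha
      rw [mem_RS hY0]
      refine ⟨ha.1, ha.2.1.trans ?_, ha.2.2⟩
      calc Y ^ (1 / 4 : ℝ) ≤ Y ^ (1 : ℝ) := Real.rpow_le_rpow_of_exponent_le hY.le (by norm_num)
        _ = Y := Real.rpow_one Y
    · intro a ha hna
      rw [mem_RS hY0] at ha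
      rw [mem_RS hY4] at hna
      exact hh a fun h' => hna ⟨ha.1, h', ha.2.2⟩
  have hg1 : ∀ a ∈ RS z (Y ^ (1 / 4 : ℝ)), g a = w a := by
    intro a ha
    rw [mem_RS hY4] at ha
    rw [hg]
    simp only
    rw [if_pos ha.2.1]
  have hm : ∑ a ∈ RS z Y, g a / (a.totient : ℝ) =
      ∑ a ∈ RS z (Y ^ (1 / 4 : ℝ)), 1 / (1 + B * (Real.log a / Real.log Y)) /
        (a.totient : ℝ) := by
    rw [hsum _ (fun a ha => by rw [hg]; simp only; rw [if_neg ha, zero_div])]
    exact Finset.sum_congr rfl fun a ha => by rw [hg1 a ha]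
  have hZ : ∑ a ∈ RS z Y, g a ^ 2 / (a.totient : ℝ) =
      ∑ a ∈ RS z (Y ^ (1 / 4 : ℝ)), (1 / (1 + B * (Real.log a / Real.log Y))) ^ 2 /
        (a.totient : ℝ) := by
    rw [hsum _ (fun a ha => by
      rw [hg]; simp only; rw [if_neg ha, zero_pow two_ne_zero, zero_div])]
    exact Finset.sum_congr rfl fun a ha => by rw [hg1 a ha]
  rw [← hm] at c1 d1
  rw [← hZ] at c2 d2
  set m := ∑ a ∈ RS z Y, g a / (a.totient : ℝ) with hmdef
  set Z := ∑ a ∈ RS z Y, g a ^ 2 / (a.totient : ℝ) with hZdef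
  have hg0 : ∀ a, 0 ≤ g a := by
    intro a
    rw [hg]
    simp only
    split_ifs
    · exact (hw0 a).le
    · exact le_rfl
  have hZ0 : 0 < Z := lt_of_lt_of_le (by positivity) c2
  refine ⟨g, ?_, fun a => ⟨hg0 a, ?_⟩, ?_, hZ0, ?_, ?_⟩
  · rw [hg]
    simp only
    rw [if_pos (by simpa using hY41), hw]
    simp
  · rw [hg]
    simp only
    split_ifs
    · exact hw1 a
    · exact zero_le_one
  · intro a ha
    rw [hg]
    simp only
    rw [if_neg]
    intro h
    have h1 : Y ^ (1 / 4 : ℝ) ≤ Y ^ (1 / 2 : ℝ) :=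
      Real.rpow_le_rpow_of_exponent_le hY.le (by norm_num)
    linarith
  · -- the first condition
    have h1 : ∑ a ∈ RS z Y, Real.log a * g a ^ 2 / (a.totient : ℝ) ≤ Real.log Y / B * m := by
      rw [hmdef, Finset.mul_sum]
      refine Finset.sum_le_sum fun a _ => ?_
      rw [← mul_div_assoc]
      refine div_le_div_of_nonneg_right ?_ (Nat.cast_nonneg _)
      by_cases ha : (a : ℝ) ≤ Y ^ (1 / 4 : ℝ)
      · have h2 : g a = w a := by rw [hg]; simp only; rw [if_pos ha]
        rw [h2]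
        have h3 : Real.log a * w a ≤ Real.log Y / B := by
          rw [hw]
          simp only
          rw [mul_one_div, div_le_div_iff₀ (by linarith [hden a]) hB0]
          have h4 : Real.log Y * (B * (Real.log a / Real.log Y)) = Real.log a * B := by
            field_simp
          nlinarith
        calc Real.log a * w a ^ 2 = Real.log a * w a * w a := by ring
          _ ≤ Real.log Y / B * w a := mul_le_mul_of_nonneg_right h3 (hw0 a).le
      · have h2 : g a = 0 := by rw [hg]; simp only; rw [if_neg ha]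
        rw [h2]
        simp
    have hK0 : 0 ≤ K := Nat.cast_nonneg _
    have h2 : K * (64 * C * (1 + L)) ≤ B * c := by
      have h3 := hKx
      rw [hx, le_div_iff₀ (by positivity)] at h3
      exact h3
    calc K * ∑ a ∈ RS z Y, Real.log a * g a ^ 2 / (a.totient : ℝ)
        ≤ K * (Real.log Y / B * (4 * C * S * ((1 + L) / B))) := by
          refine mul_le_mul_of_nonneg_left (h1.trans ?_) hK0
          exact mul_le_mul_of_nonneg_left d1 (by positivity)
      _ = (K * (64 * C * (1 + L))) * (Real.log Y * S / (16 * B ^ 2)) := by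
          field_simp
          ring
      _ ≤ (B * c) * (Real.log Y * S / (16 * B ^ 2)) :=
          mul_le_mul_of_nonneg_right h2 (by positivity)
      _ = 1 / 4 * Real.log Y * (c * S * (1 / (4 * B))) := by
          field_simp
          ring
      _ ≤ 1 / 4 * Real.log Y * Z := mul_le_mul_of_nonneg_left c2 (by positivity)
  · -- the second condition
    have h1 : (c * S * (L / B)) ^ 2 ≤ m ^ 2 := pow_le_pow_left₀ (by positivity) c1 2
    have h2 : 4 * M * C * B ≤ K * (c ^ 2 * L ^ 2) := by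
      have h3 : x / 2 * (c ^ 2 * L ^ 2) ≤ K * (c ^ 2 * L ^ 2) :=
        mul_le_mul_of_nonneg_right hKx2 (by positivity)
      refine le_trans ?_ h3
      rw [hx]
      have h4 : B * c / (64 * C * (1 + L)) / 2 * (c ^ 2 * L ^ 2) =
          B * (c ^ 3 * L) * L / (128 * C * (1 + L)) := by
        field_simp
        ring
      rw [h4, le_div_iff₀ (by positivity)]
      have h5 : 4 * M * C * B * (128 * C * (1 + L)) ≤ B * (1024 * M * C ^ 2) * L := by
        have : 0 ≤ 512 * M * C ^ 2 * B * (L - 1) := by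
          have : 0 ≤ L - 1 := by linarith
          positivity
        nlinarith
      refine h5.trans ?_
      exact mul_le_mul_of_nonneg_right (mul_le_mul_of_nonneg_left hL2 hB0.le) hL0.le
    calc M * S * Z ≤ M * S * (4 * C * S * (1 / B)) :=
          mul_le_mul_of_nonneg_left d2 (by positivity)
      _ = (4 * M * C * B) * (S ^ 2 / B ^ 2) := by
          field_simp
      _ ≤ (K * (c ^ 2 * L ^ 2)) * (S ^ 2 / B ^ 2) :=
          mul_le_mul_of_nonneg_right h2 (by positivity)
      _ = K * (c * S * (L / B)) ^ 2 := by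
          field_simp
      _ ≤ K * m ^ 2 := mul_le_mul_of_nonneg_left h1 (Nat.cast_nonneg _)

end Pool.Agent.H12.MTP
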